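import Pool.Agent.XGN.Reduction
import Pool.Agent.XG.Subst

/-!
# XGN: random matrices, the form for polynomials
-/

set_option autoImplicit false
set_option linter.unusedSectionVars false

namespace Pool.XGN

open Finset MvPolynomial Pool.XG Pool.XP

section code

variable {I A : Type} [Fintype I] [DecidableEq I] [Fintype A] [DecidableEq A]

/-- the exponent of a word -/
noncomputable def wex (s : I → A) : I × A →₀ ℕ := ∑ i, Finsupp.single (i, s i) 1

theorem wex_inj : Function.Injective (wex : (I → A) → I × A →₀ ℕ) := by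
  intro s s' h
  funext i
  by_contra hne
  have h1 : wex s (i, s i) = wex s' (i, s i) := by rw [h]
  have h2 : wex s (i, s i) = 1 := by
    unfold wex
    rw [Finsupp.finsetSum_apply, sum_eq_single i]
    · simp
    · intro j _ hj
      rw [Finsupp.single_apply, if_neg]
      intro h3
      exact hj (Prod.ext_iff.1 h3).1
    · intro h3
      exact absurd (mem_univ i) h3
  have h3 : wex s' (i, s i) = 0 := by
    unfold wex
    rw [Finsupp.finsetSum_apply]
    refine sum_eq_zero fun j _ => ?_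
    rw [Finsupp.single_apply, if_neg]
    intro h4
    have h5 := Prod.ext_iff.1 h4
    simp only at h5
    rw [h5.1] at h5
    exact hne h5.2.symm
  rw [h2, h3] at h1
  exact one_ne_zero h1

theorem codeQ_eq (Om : Finset (I → A)) : codeQ Om ℂ = ∑ s ∈ Om, monomial (wex s) (1 : ℂ) := by
  unfold codeQ
  refine sum_congr rfl fun s _ => ?_
  unfold wex
  have h1 := prod_C_mul_monomial (univ : Finset I) (fun _ => (1 : ℂ))
    (fun i => Finsupp.single (i, s i) 1)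
  rw [prod_const_one, C_1, one_mul] at h1
  rw [← h1]
  refine prod_congr rfl fun i _ => ?_
  rw [one_mul]
  rfl

theorem l2_codeQ (Om : Finset (I → A)) : l2 (codeQ Om ℂ) = Om.card := by
  rw [codeQ_eq, l2_sum_monomial _ _ wex_inj.injOn]

end code

/-- the factorials -/
theorem fact_ge {n N m : ℕ} (h1 : 4 * N ≤ m) (h2 : m ≤ n) (hn : 1 ≤ n) :
    (n.factorial : ℝ) ≤ (n : ℝ) ^ m * (n - 4 * N).factorial := by
  have h3 : n.factorial ≤ (n - 4 * N).factorial * n ^ (4 * N) := by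
    have h4 := Nat.factorial_mul_descFactorial (n := n) (k := 4 * N) (by omega)
    rw [← h4]
    exact Nat.mul_le_mul_left _ (Nat.descFactorial_le_pow _ _)
  have h5 : n ^ (4 * N) ≤ n ^ m := Nat.pow_le_pow_right hn h1
  have h6 : n.factorial ≤ n ^ m * (n - 4 * N).factorial := by
    rw [mul_comm]
    exact h3.trans (Nat.mul_le_mul_left _ h5)
  exact_mod_cast h6

/-- **XGN, the form for polynomials** (from the statement of XG) -/
theorem xgn_of (H : ∃ c : ℝ, 0 < c ∧ ∀ (k w m n s : ℕ), 1 ≤ m → m ≤ n → 1 ≤ s → 1 ≤ w →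
    (s : ℝ) + (n : ℝ) ^ w < Real.exp (c * (m : ℝ) ^ (1 / ((Nat.fib (2 * k + 4) : ℝ) - 1))) →
    ∃ R Q : ℕ, 1 ≤ R ∧ 1 ≤ Q ∧ R + Q = m / 4 ∧
      ∀ P : Fin s → MvPolynomial (Fin n × Fin n) ℂ, Pool.QPIT.IsCircuitW (k + 1) w P →
      ∀ (g : Fin s) (φ : Fin n × Fin n → MvPolynomial (Row R Q × Col R Q) ℂ),
        (∀ p, (φ p).totalDegree ≤ 1) → ∀ γ : ℂ,
        (1 - Real.exp (-(c * (m : ℝ) ^ (1 / ((Nat.fib (2 * k + 4) : ℝ) - 1))))) *
          (‖γ‖ ^ 2 * (Om R Q).card) ≤ l2 (aeval φ (P g) - C γ * codeQ (Om R Q) ℂ)) :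
    ∃ C0 : ℝ, 1 ≤ C0 ∧ ∀ (k w m n s : ℕ), 1 ≤ m → m ≤ n → 1 ≤ s → 1 ≤ w →
    (s : ℝ) + (n : ℝ) ^ w < Real.exp ((m : ℝ) ^ (1 / ((Nat.fib (2 * k + 4) : ℝ) - 1)) / C0) →
    ∀ P : Fin s → MvPolynomial (Fin n × Fin n) ℂ, Pool.QPIT.IsCircuitW (k + 1) w P →
    ∀ (g : Fin s) (γ : ℂ), ‖γ‖ ^ 2 * ((1 / (C0 * n)) ^ m * n.factorial) ≤
      l2 (P g - C γ * Pool.CDep.permP n ℂ) := by
  obtain ⟨c, hc, H⟩ := H
  obtain ⟨κ, hκ⟩ : ∃ κ : ℝ, κ = (3 / 4 : ℝ) ^ 8 / 4 := ⟨_, rfl⟩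
  have hκ0 : 0 < κ := by rw [hκ]; positivity
  have hκ1 : κ ≤ 1 := by rw [hκ]; norm_num
  refine ⟨max (1 / c) (8 / κ), le_max_of_le_right (by rw [le_div_iff₀ hκ0]; linarith), ?_⟩
  intro k w m n s hm hmn hs hw hexp P hP g γ
  obtain ⟨C0, hC0⟩ : ∃ C0 : ℝ, C0 = max (1 / c) (8 / κ) := ⟨_, rfl⟩
  rw [← hC0] at hexp ⊢
  have hC1 : 1 / c ≤ C0 := by rw [hC0]; exact le_max_left _ _
  have hC2 : 8 / κ ≤ C0 := by rw [hC0]; exact le_max_right _ _
  have hC0p : 0 < C0 := lt_of_lt_of_le (by positivity) hC1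
  obtain ⟨E, hE⟩ : ∃ E : ℝ, E = (m : ℝ) ^ (1 / ((Nat.fib (2 * k + 4) : ℝ) - 1)) := ⟨_, rfl⟩
  rw [← hE] at hexp
  have hE0 : 0 ≤ E := by rw [hE]; exact Real.rpow_nonneg (Nat.cast_nonneg _) _
  have h1 : E / C0 ≤ c * E := by
    rw [div_le_iff₀ hC0p]
    have h2 : 1 ≤ c * C0 := by
      rw [div_le_iff₀ hc] at hC1
      linarith
    nlinarith
  have h3 : (s : ℝ) + (n : ℝ) ^ w < Real.exp (c * E) := hexp.trans_le (Real.exp_le_exp.2 h1)
  have hn1 : 1 ≤ n := hm.trans hmn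
  have hnr : (1 : ℝ) ≤ n := by exact_mod_cast hn1
  have hsr : (1 : ℝ) ≤ s := by exact_mod_cast hs
  have hτ : Real.exp (-(c * E)) ≤ 1 / 2 := by
    rw [Real.exp_neg, ← one_div]
    have h4 : (2 : ℝ) ≤ Real.exp (c * E) := by
      have := one_le_pow₀ (n := w) hnr
      linarith
    exact one_div_le_one_div_of_le (by norm_num) h4
  obtain ⟨R, Q, hR, hQ, hRQ, H⟩ := H k w m n s hm hmn hs hw (by rw [← hE]; exact h3)
  have h5 : 4 * (R + Q) ≤ m := by omega
  have h6 := reduce (R := R) (Q := Q) (h5.trans hmn) (P g)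
    (τ := Real.exp (-(c * E))) (fun φ hφ γ' => by
      rw [l2_codeQ, hE]
      exact H P hP g φ hφ γ') γ
  refine le_trans ?_ h6
  rw [l2_codeQ, ← hκ]
  -- the number of words
  have h7 : (1 : ℝ) ≤ 4 ^ (R + Q) * ((Om R Q).card : ℝ) := by
    have h8 := Pool.XG.card_Om_ge R Q
    have h9 : 1 ≤ 4 ^ (R + Q) * (Om R Q).card := (Nat.factorial_pos _).trans_le h8
    exact_mod_cast h9
  have h10 := fact_ge h5 hmn hn1
  -- the powers
  have hN : 1 ≤ R + Q := by omega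
  have h11 : (1 / (C0 * n)) ^ m * n.factorial ≤ (1 / C0) ^ m * (n - 4 * (R + Q)).factorial := by
    have h12 : (1 / (C0 * n) : ℝ) ^ m = (1 / C0) ^ m * (1 / (n : ℝ) ^ m) := by
      rw [← one_div_pow, ← mul_pow]
      congr 1
      field_simp
    rw [h12, mul_assoc]
    refine mul_le_mul_of_nonneg_left ?_ (by positivity)
    rw [one_div, inv_mul_le_iff₀ (by positivity)]
    exact h10
  have h13 : (1 / C0) ^ m ≤ 1 / 2 * (κ / 4) ^ (R + Q) := by
    have h14 : 1 / C0 ≤ κ / 8 := by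
      rw [div_le_iff₀ hC0p]
      rw [div_le_iff₀ hκ0] at hC2
      linarith
    calc (1 / C0) ^ m ≤ (κ / 8) ^ m := pow_le_pow_left₀ (by positivity) h14 m
      _ ≤ (κ / 8) ^ (R + Q) := pow_le_pow_of_le_one (by positivity) (by linarith) (by omega)
      _ = (1 / 2) ^ (R + Q) * (κ / 4) ^ (R + Q) := by
          rw [← mul_pow]
          congr 1
          ring
      _ ≤ 1 / 2 * (κ / 4) ^ (R + Q) := by
          refine mul_le_mul_of_nonneg_right ?_ (by positivity)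
          exact pow_le_of_le_one (by norm_num) (by norm_num) (by omega)
  have h15 : (κ / 4) ^ (R + Q) ≤ κ ^ (R + Q) * ((Om R Q).card : ℝ) := by
    rw [div_pow, div_le_iff₀ (by positivity), mul_assoc]
    refine le_mul_of_one_le_right (by positivity) ?_
    rw [mul_comm]
    exact h7
  calc ‖γ‖ ^ 2 * ((1 / (C0 * n)) ^ m * n.factorial)
      ≤ ‖γ‖ ^ 2 * ((1 / C0) ^ m * (n - 4 * (R + Q)).factorial) :=
        mul_le_mul_of_nonneg_left h11 (by positivity)
    _ ≤ ‖γ‖ ^ 2 * ((1 / 2 * (κ ^ (R + Q) * ((Om R Q).card : ℝ))) * (n - 4 * (R + Q)).factorial) := by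
        refine mul_le_mul_of_nonneg_left (mul_le_mul_of_nonneg_right ?_ (Nat.cast_nonneg _))
          (by positivity)
        exact h13.trans (mul_le_mul_of_nonneg_left h15 (by norm_num))
    _ = 1 / 2 * (‖γ‖ ^ 2 * ((n - 4 * (R + Q)).factorial * (κ ^ (R + Q) * (Om R Q).card))) := by ring
    _ ≤ _ := by
        refine mul_le_mul_of_nonneg_right ?_ (by positivity)
        linarith

end Pool.XGN
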