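import Pool.Agent.XGN.Restrict
import Mathlib.RingTheory.RootsOfUnity.Complex

/-!
# XGN: the average over a part of the variables
-/

set_option autoImplicit false

namespace Pool.XGN

open Finset MvPolynomial Pool.XG

section avg

variable {Y Z : Type}

/-- the variables of `Z` are replaced by constants -/
def fixZ (z : Z → ℂ) : Y ⊕ Z → Y ⊕ ℂ := Sum.map id z

theorem fixZ_inj (z : Z → ℂ) : Inj (fixZ z : Y ⊕ Z → Y ⊕ ℂ) := by
  intro v v' l h h'
  cases v with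
  | inl y =>
    cases v' with
    | inl y' =>
      simp only [fixZ, Sum.map_inl, id_eq, Sum.inl.injEq] at h h'
      rw [h, h']
    | inr j => simp [fixZ] at h'
  | inr j => simp [fixZ] at h

theorem eval_fixZ (y : Y → ℂ) (z : Z → ℂ) (h : MvPolynomial (Y ⊕ Z) ℂ) :
    eval y (aeval (sub (fixZ z)) h) = eval (Sum.elim y z) h := by
  rw [← coe_aeval_eq_eval, ← coe_aeval_eq_eval]
  have h1 : (aeval y : MvPolynomial Y ℂ →ₐ[ℂ] ℂ).comp (aeval (sub (fixZ z))) =
      aeval (Sum.elim y z) := by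
    refine MvPolynomial.algHom_ext fun v => ?_
    rw [AlgHom.comp_apply, aeval_X, aeval_X]
    cases v with
    | inl y' => simp [sub, fixZ]
    | inr j => simp [sub, fixZ]
  exact DFunLike.congr_fun h1 h

/-- Parseval in the variables of `Z` -/
theorem avg_l2 [Fintype Y] [Fintype Z] [DecidableEq Y] [DecidableEq Z] {M : ℕ} {ζ : ℂ} (hM0 : M ≠ 0)
    (hζ : IsPrimitiveRoot ζ M) (h : MvPolynomial (Y ⊕ Z) ℂ)
    (hM : ∀ p ∈ h.support, ∀ l, p l < M) :
    ∑ k : Z → Fin M, l2 (aeval (sub (fixZ fun j => ζ ^ (k j : ℕ))) h : MvPolynomial Y ℂ) =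
      (M : ℝ) ^ Fintype.card Z * l2 h := by
  classical
  have h1 := parseval hζ h hM
  have h2 : ∀ z : Z → ℂ, ∀ p ∈ (aeval (sub (fixZ z)) h : MvPolynomial Y ℂ).support, ∀ l,
      p l < M := by
    intro z p hp l
    rw [mem_support_iff, coeff_aeval_sub] at hp
    obtain ⟨q, hq, -⟩ := exists_ne_zero_of_sum_ne_zero hp
    rw [mem_filter] at hq
    have e := Ex_apply (fixZ z) (fixZ_inj z) q (v := Sum.inl l) (l := l) rfl
    rw [← hq.2, e]
    exact hM q hq.1 _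
  have h3 : ∀ k : Z → Fin M,
      ∑ k' : Y → Fin M, ‖eval (fun l => ζ ^ ((Sum.elim k' k l : Fin M) : ℕ)) h‖ ^ 2 =
        (M : ℝ) ^ Fintype.card Y *
          l2 (aeval (sub (fixZ fun j => ζ ^ (k j : ℕ))) h : MvPolynomial Y ℂ) := by
    intro k
    rw [← parseval hζ _ (h2 fun j => ζ ^ (k j : ℕ))]
    refine sum_congr rfl fun k' _ => ?_
    rw [eval_fixZ]
    congr 4
    funext l
    cases l <;> rfl
  have h4 : ∑ k : Y ⊕ Z → Fin M, ‖eval (fun l => ζ ^ (k l : ℕ)) h‖ ^ 2 =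
      ∑ k : Z → Fin M, ∑ k' : Y → Fin M, ‖eval (fun l => ζ ^ ((Sum.elim k' k l : Fin M) : ℕ)) h‖ ^ 2 := by
    rw [sum_comm, ← Fintype.sum_prod_type']
    refine Fintype.sum_equiv (Equiv.sumArrowEquivProdArrow Y Z (Fin M)) _ _ fun k => ?_
    congr 4
    funext l
    cases l <;> rfl
  rw [h4, sum_congr rfl fun k _ => h3 k, ← mul_sum, Fintype.card_sum, pow_add, mul_assoc] at h1
  have h5 : (0 : ℝ) < (M : ℝ) ^ Fintype.card Y := by
    have : 0 < M := Nat.pos_of_ne_zero hM0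
    positivity
  exact mul_left_cancel₀ h5.ne' h1

theorem l2_pos {L : Type} {g : MvPolynomial L ℂ} (hg : g ≠ 0) : 0 < l2 g := by
  obtain ⟨p, hp⟩ := support_nonempty.2 hg
  refine lt_of_lt_of_le ?_ (single_le_sum (f := fun p => ‖coeff p g‖ ^ 2)
    (fun q _ => by positivity) hp)
  have h1 := mem_support_iff.1 hp
  have h2 : 0 < ‖coeff p g‖ := norm_pos_iff.2 h1
  positivity

theorem exists_bound {L : Type} [Fintype L] (g : MvPolynomial L ℂ) :
    ∃ K : ℕ, ∀ p ∈ g.support, ∀ l, p l < K := by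
  classical
  refine ⟨(g.support.sup fun q => univ.sup fun v => q v) + 1, fun q hq v => ?_⟩
  have h1 : q v ≤ univ.sup fun v => q v := le_sup (f := fun v => q v) (mem_univ v)
  have h2 : (univ.sup fun v => q v) ≤ g.support.sup fun q => univ.sup fun v => q v :=
    le_sup (f := fun q : L →₀ ℕ => univ.sup fun v => q v) hq
  omega

/-- a good point -/
theorem exists_z [Fintype Y] [Fintype Z] (h : MvPolynomial (Y ⊕ Z) ℂ) {g : MvPolynomial Z ℂ} (hg : g ≠ 0) :
    ∃ z : Z → ℂ, eval z g ≠ 0 ∧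
      l2 g * l2 (aeval (sub (fixZ z)) h : MvPolynomial Y ℂ) ≤ ‖eval z g‖ ^ 2 * l2 h := by
  classical
  obtain ⟨K1, hK1⟩ := exists_bound h
  obtain ⟨K2, hK2⟩ := exists_bound g
  set M := K1 + K2 + 1 with hM
  have hM0 : M ≠ 0 := by omega
  obtain ⟨ζ, hζ⟩ : ∃ ζ : ℂ, IsPrimitiveRoot ζ M := ⟨_, Complex.isPrimitiveRoot_exp M hM0⟩
  have h1 := avg_l2 hM0 hζ h fun p hp l => (hK1 p hp l).trans_le (by omega)
  have h2 := parseval hζ g fun p hp l => (hK2 p hp l).trans_le (by omega)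
  have hMp : (0 : ℝ) < (M : ℝ) ^ Fintype.card Z := by
    have : 0 < M := Nat.pos_of_ne_zero hM0
    positivity
  have hgp := l2_pos hg
  by_contra hcon
  push Not at hcon
  have h3 : ∀ k : Z → Fin M, ‖eval (fun l => ζ ^ (k l : ℕ)) g‖ ^ 2 * l2 h ≤
      l2 g * l2 (aeval (sub (fixZ fun j => ζ ^ (k j : ℕ))) h : MvPolynomial Y ℂ) := by
    intro k
    by_cases hk : eval (fun l => ζ ^ (k l : ℕ)) g = 0
    · rw [hk, norm_zero]
      have := mul_nonneg hgp.le (l2_nonneg (aeval (sub (fixZ fun j => ζ ^ (k j : ℕ))) h :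
        MvPolynomial Y ℂ))
      simpa using this
    · exact (hcon _ hk).le
  obtain ⟨k0, hk0⟩ : ∃ k : Z → Fin M, eval (fun l => ζ ^ (k l : ℕ)) g ≠ 0 := by
    by_contra h0
    push Not at h0
    rw [sum_eq_zero fun k _ => by rw [h0 k, norm_zero]; norm_num] at h2
    have := mul_pos hMp hgp
    linarith
  have h4 : ∑ k : Z → Fin M, ‖eval (fun l => ζ ^ (k l : ℕ)) g‖ ^ 2 * l2 h <
      ∑ k : Z → Fin M, l2 g *
        l2 (aeval (sub (fixZ fun j => ζ ^ (k j : ℕ))) h : MvPolynomial Y ℂ) :=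
    sum_lt_sum (fun k _ => h3 k) ⟨k0, mem_univ _, hcon _ hk0⟩
  rw [← sum_mul, ← mul_sum, h1, h2] at h4
  have h5 : (M : ℝ) ^ Fintype.card Z * l2 g * l2 h = l2 g * ((M : ℝ) ^ Fintype.card Z * l2 h) := by
    ring
  rw [h5] at h4
  exact lt_irrefl _ h4

end avg

end Pool.XGN
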