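import Pool.Agent.XGN.Avg
import Pool.Agent.XN.Reduce
import Pool.Agent.XP.Perm

/-!
# XGN: the permanent under the restrictions
-/

set_option autoImplicit false
set_option linter.unusedSectionVars false

namespace Pool.XGN

open Finset MvPolynomial Pool.XG Pool.XP

/-- the permanent of the matrix of the variables -/
noncomputable def permI (ι : Type) [Fintype ι] [DecidableEq ι] : MvPolynomial (ι × ι) ℂ :=
  (Matrix.of fun i j => (X (i, j) : MvPolynomial (ι × ι) ℂ)).permanent

section l2

variable {L : Type}

theorem l2_C_mul (c : ℂ) (F : MvPolynomial L ℂ) : l2 (C c * F) = ‖c‖ ^ 2 * l2 F := by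
  classical
  have h1 : (C c * F).support ⊆ F.support := by
    intro p hp
    rw [mem_support_iff, coeff_C_mul] at hp
    exact mem_support_iff.2 (right_ne_zero_of_mul hp)
  rw [l2_eq _ h1, l2, mul_sum]
  refine sum_congr rfl fun p _ => ?_
  rw [coeff_C_mul, norm_mul, mul_pow]

theorem l2_sum_monomial {S : Type} [DecidableEq L] (s : Finset S) (e : S → L →₀ ℕ)
    (he : Set.InjOn e s) : l2 (∑ x ∈ s, monomial (e x) (1 : ℂ)) = s.card := by
  classical
  have h0 : ∀ p, coeff p (∑ x ∈ s, monomial (e x) (1 : ℂ)) =
      ∑ x ∈ s, if e x = p then 1 else 0 := by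
    intro p
    rw [coeff_sum]
    exact sum_congr rfl fun x _ => coeff_monomial _ _ _
  have h1 : (∑ x ∈ s, monomial (e x) (1 : ℂ)).support ⊆ s.image e := by
    intro p hp
    rw [mem_support_iff, h0] at hp
    obtain ⟨x, hx, hx2⟩ := exists_ne_zero_of_sum_ne_zero hp
    refine mem_image.2 ⟨x, hx, ?_⟩
    by_contra hne
    rw [if_neg hne] at hx2
    exact hx2 rfl
  rw [l2_eq _ h1, sum_image he]
  rw [sum_congr rfl (g := fun _ => (1 : ℝ))]
  · rw [sum_const, nsmul_eq_mul, mul_one]
  · intro x hx
    rw [h0, sum_eq_single_of_mem x hx, if_pos rfl, norm_one, one_pow]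
    intro y hy hne
    rw [if_neg fun h => hne (he hy hx h)]

end l2

theorem map_perm_alg {A B ι : Type} [CommRing A] [CommRing B] [Algebra ℂ A] [Algebra ℂ B]
    [Fintype ι] [DecidableEq ι] (f : A →ₐ[ℂ] B) (M : Matrix ι ι A) :
    f M.permanent = (M.map f).permanent := Pool.CDep.map_permanent' f.toRingHom M

section perm

variable {ι κ : Type} [Fintype ι] [DecidableEq ι] [Fintype κ] [DecidableEq κ]

/-- the exponent of the monomial of a permutation -/
noncomputable def pex (σ : Equiv.Perm ι) : ι × ι →₀ ℕ := ∑ i, Finsupp.single (σ i, i) 1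

theorem pex_inj : Function.Injective (pex : Equiv.Perm ι → ι × ι →₀ ℕ) := by
  intro σ σ' h
  ext i
  by_contra hne
  have h1 : pex σ (σ i, i) = pex σ' (σ i, i) := by rw [h]
  have h2 : pex σ (σ i, i) = 1 := by
    unfold pex
    rw [Finsupp.finsetSum_apply, sum_eq_single i]
    · simp
    · intro j _ hj
      rw [Finsupp.single_apply, if_neg]
      intro h3
      exact hj (Prod.ext_iff.1 h3).2
    · intro h3
      exact absurd (mem_univ i) h3
  have h3 : pex σ' (σ i, i) = 0 := by
    unfold pex
    rw [Finsupp.finsetSum_apply]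
    refine sum_eq_zero fun j _ => ?_
    rw [Finsupp.single_apply, if_neg]
    intro h4
    have h5 := Prod.ext_iff.1 h4
    simp only at h5
    rw [h5.2] at h5
    exact hne h5.1.symm
  rw [h2, h3] at h1
  exact one_ne_zero h1

theorem permI_eq : permI ι = ∑ σ : Equiv.Perm ι, monomial (pex σ) (1 : ℂ) := by
  unfold permI Matrix.permanent
  refine sum_congr rfl fun σ _ => ?_
  unfold pex
  have h1 := prod_C_mul_monomial (univ : Finset ι) (fun _ => (1 : ℂ))
    (fun i => Finsupp.single (σ i, i) 1)
  rw [prod_const_one, C_1, one_mul] at h1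
  rw [← h1]
  refine prod_congr rfl fun i _ => ?_
  rw [one_mul]
  rfl

theorem l2_permI : l2 (permI ι) = (Fintype.card ι).factorial := by
  rw [permI_eq, l2_sum_monomial _ _ pex_inj.injOn, card_univ, Fintype.card_perm]

theorem permI_ne_zero : permI ι ≠ 0 := by
  intro h
  have h1 := l2_permI (ι := ι)
  rw [h] at h1
  have h2 : l2 (0 : MvPolynomial (ι × ι) ℂ) = 0 := by simp [l2]
  rw [h2] at h1
  have : (0 : ℝ) < (Fintype.card ι).factorial := by exact_mod_cast Nat.factorial_pos _
  linarith

theorem eval_permI (z : κ × κ → ℂ) : eval z (permI κ) = (Matrix.of fun i j => z (i, j)).permanent := by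
  unfold permI
  rw [Pool.CDep.map_permanent']
  congr 1
  refine Matrix.ext fun i j => ?_
  show eval z (X (i, j)) = z (i, j)
  rw [eval_X]

/-- the off-diagonal blocks are zero -/
def blk {n : ℕ} (E : Fin n ≃ ι ⊕ κ) (v : Fin n × Fin n) : (ι × ι ⊕ κ × κ) ⊕ ℂ :=
  match E v.1, E v.2 with
  | Sum.inl a, Sum.inl b => Sum.inl (Sum.inl (a, b))
  | Sum.inr a, Sum.inr b => Sum.inl (Sum.inr (a, b))
  | _, _ => Sum.inr 0

theorem blk_inj {n : ℕ} (E : Fin n ≃ ι ⊕ κ) : Inj (blk E) := by
  rintro ⟨i, j⟩ ⟨i', j'⟩ l h h'
  unfold blk at h h'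
  simp only at h h'
  cases hi : E i with
  | inl a =>
    cases hj : E j with
    | inl b =>
      rw [hi, hj] at h
      cases hi' : E i' with
      | inl a' =>
        cases hj' : E j' with
        | inl b' =>
          rw [hi', hj'] at h'
          simp only [Sum.inl.injEq] at h h'
          rw [← h'] at h
          simp only [Sum.inl.injEq, Prod.mk.injEq] at h
          rw [h.1, ← hi'] at hi
          rw [h.2, ← hj'] at hj
          rw [E.injective hi, E.injective hj]
        | inr b' => rw [hi', hj'] at h'; simp at h'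
      | inr a' =>
        cases hj' : E j' with
        | inl b' => rw [hi', hj'] at h'; simp at h'
        | inr b' =>
          rw [hi', hj'] at h'
          simp only [Sum.inl.injEq] at h h'
          rw [← h'] at h
          simp at h
    | inr b => rw [hi, hj] at h; simp at h
  | inr a =>
    cases hj : E j with
    | inl b => rw [hi, hj] at h; simp at h
    | inr b =>
      rw [hi, hj] at h
      cases hi' : E i' with
      | inl a' =>
        cases hj' : E j' with
        | inl b' =>
          rw [hi', hj'] at h'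
          simp only [Sum.inl.injEq] at h h'
          rw [← h'] at h
          simp at h
        | inr b' => rw [hi', hj'] at h'; simp at h'
      | inr a' =>
        cases hj' : E j' with
        | inl b' => rw [hi', hj'] at h'; simp at h'
        | inr b' =>
          rw [hi', hj'] at h'
          simp only [Sum.inl.injEq] at h h'
          rw [← h'] at h
          simp only [Sum.inr.injEq, Prod.mk.injEq] at h
          rw [h.1, ← hi'] at hi
          rw [h.2, ← hj'] at hj
          rw [E.injective hi, E.injective hj]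

theorem blk_const {n : ℕ} (E : Fin n ≃ ι ⊕ κ) (v : Fin n × Fin n) (c : ℂ)
    (h : blk E v = Sum.inr c) : c = 0 := by
  unfold blk at h
  cases hi : E v.1 <;> cases hj : E v.2 <;> rw [hi, hj] at h <;> simp at h <;> exact h.symm

theorem blk_ker {n : ℕ} (E : Fin n ≃ ι ⊕ κ) (v : Fin n × Fin n) : ker (blk E) v = 1 := by
  unfold ker
  cases h : blk E v with
  | inl l => rfl
  | inr c =>
    simp only
    rw [blk_const E v c h]
    simp

theorem aeval_blk {n : ℕ} (E : Fin n ≃ ι ⊕ κ) :
    aeval (sub (blk E)) (Pool.CDep.permP n ℂ) =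
      rename Sum.inl (permI ι) * rename Sum.inr (permI κ) := by
  unfold Pool.CDep.permP permI
  rw [map_perm_alg, map_perm_alg, map_perm_alg,
    ← Pool.XN.permanent_fromBlocks _ 0 _, ← Pool.Agent.Helper97.Form.permanent_reindex E E]
  congr 1
  refine Matrix.ext fun i j => ?_
  show aeval (sub (blk E)) (X (i, j) : MvPolynomial (Fin n × Fin n) ℂ) = _
  rw [aeval_X]
  show sub (blk E) (i, j) = Matrix.fromBlocks _ 0 0 _ (E i) (E j)
  unfold sub blk
  simp only
  cases hi : E i <;> cases hj : E j <;> simp

end perm

end Pool.XGN
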