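import Pool.Agent.XGN.FinalOf
import Pool.Agent.XG.Assembly

/-!
# XGN: random matrices, the form for polynomials
-/

set_option autoImplicit false

namespace Pool.XGN

open Finset MvPolynomial Pool.XG Pool.XP

/-- **XGN, the form for polynomials**: a gate of a circuit with polynomial gates is far from every
multiple of the permanent, in the `ℓ²` norm of the coefficients. -/
theorem xgn : ∃ C0 : ℝ, 1 ≤ C0 ∧ ∀ (k w m n s : ℕ), 1 ≤ m → m ≤ n → 1 ≤ s → 1 ≤ w →
    (s : ℝ) + (n : ℝ) ^ w < Real.exp ((m : ℝ) ^ (1 / ((Nat.fib (2 * k + 4) : ℝ) - 1)) / C0) →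
    ∀ P : Fin s → MvPolynomial (Fin n × Fin n) ℂ, Pool.QPIT.IsCircuitW (k + 1) w P →
    ∀ (g : Fin s) (γ : ℂ), ‖γ‖ ^ 2 * ((1 / (C0 * n)) ^ m * n.factorial) ≤
      l2 (P g - C γ * Pool.CDep.permP n ℂ) :=
  xgn_of xg

end Pool.XGN
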