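import Pool.Agent.XGN.Block

/-!
# XGN: the paired permanent and the reduction

The internal rows of the matrix of `Pool.XP.pm` are multiplied by `1 / 2`.
-/

set_option autoImplicit false
set_option linter.unusedSectionVars false

namespace Pool.XGN

open Finset MvPolynomial Pool.XG Pool.XP

/-- rows multiplied by constants -/
theorem permanent_row_mul {A ι : Type} [CommRing A] [Fintype ι] [DecidableEq ι] (d : ι → A)
    (M : Matrix ι ι A) : (Matrix.of fun i j => d i * M i j).permanent = (∏ i, d i) * M.permanent := by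
  unfold Matrix.permanent
  rw [mul_sum]
  refine sum_congr rfl fun σ _ => ?_
  simp only [Matrix.of_apply, prod_mul_distrib]
  rw [Equiv.prod_comp σ d]

section pair

variable {R Q : ℕ}

/-- the index set of the matrix -/
abbrev Idx (R Q : ℕ) : Type := Col R Q ⊕ Col R Q

/-- the entries of the matrix: letters and constants of modulus `1 / 2` or `0` -/
noncomputable def tp (e : Col R Q ≃ Row R Q) (v : Idx R Q × Idx R Q) : (Row R Q × Col R Q) ⊕ ℂ :=
  match v.1, v.2 with
  | Sum.inl r, Sum.inl c => if tyR (e r) then Sum.inl (e r, c) else Sum.inr 0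
  | Sum.inl r, Sum.inr c => if tyR (e r) then Sum.inr 0 else Sum.inl (e r, c)
  | Sum.inr r, Sum.inl c => if r.1 = c.1 then Sum.inr (1 / 2) else Sum.inr 0
  | Sum.inr r, Sum.inr c => if r.1 = c.1 then (if r.2 then Sum.inr (-1 / 2) else Sum.inr (1 / 2))
      else Sum.inr 0

theorem tp_inl_iff (e : Col R Q ≃ Row R Q) {v : Idx R Q × Idx R Q} {l : Row R Q × Col R Q}
    (h : tp e v = Sum.inl l) : (tyR l.1 = true ∧ v = (Sum.inl (e.symm l.1), Sum.inl l.2)) ∨
      (tyR l.1 = false ∧ v = (Sum.inl (e.symm l.1), Sum.inr l.2)) := by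
  obtain ⟨v1, v2⟩ := v
  unfold tp at h
  cases v1 with
  | inl r =>
    cases v2 with
    | inl c =>
      simp only at h
      split_ifs at h with ht
      rw [Sum.inl.injEq] at h
      left
      rw [← h]
      simp [ht]
    | inr c =>
      simp only at h
      split_ifs at h with ht
      rw [Sum.inl.injEq] at h
      right
      rw [← h]
      simp [ht]
  | inr r =>
    cases v2 with
    | inl c => simp only at h; split_ifs at h
    | inr c => simp only at h; split_ifs at h

theorem tp_inj (e : Col R Q ≃ Row R Q) : Inj (tp e) := by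
  intro v v' l h h'
  rcases tp_inl_iff e h with ⟨h1, h2⟩ | ⟨h1, h2⟩ <;> rcases tp_inl_iff e h' with ⟨h3, h4⟩ | ⟨h3, h4⟩
  · rw [h2, h4]
  · rw [h1] at h3
    exact absurd h3 (by simp)
  · rw [h1] at h3
    exact absurd h3 (by simp)
  · rw [h2, h4]

theorem tp_const (e : Col R Q ≃ Row R Q) (v : Idx R Q × Idx R Q) (c : ℂ)
    (h : tp e v = Sum.inr c) : ‖c‖ < 1 := by
  obtain ⟨v1, v2⟩ := v
  unfold tp at h
  cases v1 <;> cases v2 <;> simp only at h <;> split_ifs at h <;>
    (rw [Sum.inr.injEq] at h; rw [← h]; norm_num)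

theorem ker_tp_inl (e : Col R Q ≃ Row R Q) (r : Col R Q) (j : Idx R Q) :
    ker (tp e) (Sum.inl r, j) = 1 := by
  unfold ker tp
  cases j with
  | inl c => simp only; split_ifs <;> simp
  | inr c => simp only; split_ifs <;> simp

theorem ker_tp_inr (e : Col R Q ≃ Row R Q) (r : Col R Q) (j : Idx R Q) :
    ker (tp e) (Sum.inr r, j) = if r.1 = (Sum.elim id id j : Col R Q).1 then 4 / 3 else 1 := by
  unfold ker tp
  cases j with
  | inl c =>
    simp only [Sum.elim_inl, id_eq]
    split_ifs with h h2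
    · norm_num
    · simp
  | inr c =>
    simp only [Sum.elim_inr, id_eq]
    split_ifs
    · norm_num
    · norm_num
    · simp

theorem prod_ker_tp (e : Col R Q ≃ Row R Q) :
    ∏ v, ker (tp e) v = ((4 / 3 : ℝ) ^ 8) ^ (R + Q) := by
  rw [Fintype.prod_prod_type, Fintype.prod_sum_type]
  simp only [ker_tp_inl, prod_const_one, one_mul, ker_tp_inr]
  have h1 : ∀ r : Col R Q, ∏ j : Idx R Q,
      (if r.1 = (Sum.elim id id j : Col R Q).1 then 4 / 3 else 1 : ℝ) = (4 / 3) ^ 4 := by
    intro r
    have h5 : ∏ j : Idx R Q, (if r.1 = (Sum.elim id id j : Col R Q).1 then 4 / 3 else 1 : ℝ) =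
        (∏ c : Col R Q, (if r.1 = c.1 then 4 / 3 else 1 : ℝ)) *
          ∏ c : Col R Q, (if r.1 = c.1 then 4 / 3 else 1 : ℝ) := by
      rw [Fintype.prod_sum_type]
      rfl
    have h2 : ∏ c : Col R Q, (if r.1 = c.1 then 4 / 3 else 1 : ℝ) = (4 / 3) ^ 2 := by
      rw [Fintype.prod_prod_type]
      simp only [Fintype.prod_bool]
      have h3 : ∀ x : Fin (R + Q), ((if r.1 = x then 4 / 3 else 1 : ℝ) *
          (if r.1 = x then 4 / 3 else 1 : ℝ)) = if r.1 = x then (4 / 3) ^ 2 else 1 := by
        intro x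
        split_ifs <;> norm_num
      simp only [h3]
      rw [prod_ite_eq, if_pos (mem_univ _)]
    rw [h5, h2, ← pow_add]
  rw [prod_congr rfl fun r _ => h1 r, prod_const, card_univ]
  have h4 : Fintype.card (Col R Q) = 2 * (R + Q) := by
    simp only [Col, Fintype.card_prod, Fintype.card_fin, Fintype.card_bool]
    ring
  rw [h4, ← pow_mul, ← pow_mul]
  congr 1
  ring

/-- the row factors -/
noncomputable def rf (i : Idx R Q) : MvPolynomial (Row R Q × Col R Q) ℂ :=
  match i with
  | Sum.inl _ => 1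
  | Sum.inr _ => C (1 / 2)

theorem aeval_tp (e : Col R Q ≃ Row R Q) :
    aeval (sub (tp e)) (permI (Idx R Q)) =
      C (((1 / 2 : ℂ) ^ 2) ^ (R + Q) * ((-2) ^ R * 2 ^ Q)) * codeQ (Om R Q) ℂ := by
  unfold permI
  rw [map_perm_alg]
  have h1 : (Matrix.of fun i j => (X (i, j) : MvPolynomial (Idx R Q × Idx R Q) ℂ)).map
      (aeval (sub (tp e)) : MvPolynomial (Idx R Q × Idx R Q) ℂ →ₐ[ℂ] _) =
      Matrix.of fun i j => rf i * pm e (fun l => (X l : MvPolynomial (Row R Q × Col R Q) ℂ)) i j := by
    refine Matrix.ext fun i j => ?_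
    show aeval (sub (tp e)) (X (i, j) : MvPolynomial (Idx R Q × Idx R Q) ℂ) = _
    rw [aeval_X]
    unfold sub tp rf pm
    cases i <;> cases j <;> simp only [Matrix.of_apply] <;> split_ifs <;> simp
    rw [neg_div, C_neg, one_div]
  rw [h1, permanent_row_mul, pm_permanent]
  have h2 : ∏ i : Idx R Q, rf i = C (((1 / 2 : ℂ) ^ 2) ^ (R + Q)) := by
    rw [Fintype.prod_sum_type]
    simp only [rf, prod_const_one, one_mul, prod_const, card_univ]
    have h4 : Fintype.card (Col R Q) = 2 * (R + Q) := by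
      simp only [Col, Fintype.card_prod, Fintype.card_fin, Fintype.card_bool]
      ring
    rw [h4, ← C_pow, pow_mul]
  rw [h2]
  unfold codeQ
  simp only [C_mul, C_pow, C_neg, map_ofNat]
  ring

end pair

end Pool.XGN
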