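import Pool.Agent.XGN.Pair

/-!
# XGN: from random matrices to the paired permanent
-/

set_option autoImplicit false
set_option linter.unusedSectionVars false

namespace Pool.XGN

open Finset MvPolynomial Pool.XG Pool.XP

theorem sub_deg {σ L : Type} (τ : σ → L ⊕ ℂ) (v : σ) : (sub τ v).totalDegree ≤ 1 := by
  unfold sub
  cases τ v with
  | inl l => exact (totalDegree_X l).le
  | inr c =>
    simp only
    rw [totalDegree_C]
    exact Nat.zero_le 1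

section three

variable {σ L₁ L₂ L₃ : Type} (τ₁ : σ → L₁ ⊕ ℂ) (τ₂ : L₁ → L₂ ⊕ ℂ) (τ₃ : L₂ → L₃ ⊕ ℂ)

/-- three substitutions in a row -/
noncomputable def sub3 (v : σ) : MvPolynomial L₃ ℂ :=
  aeval (sub τ₃) (aeval (sub τ₂) (sub τ₁ v))

theorem aeval_sub_deg (v : L₁) : (aeval (sub τ₃) (sub τ₂ v)).totalDegree ≤ 1 := by
  have h1 : sub τ₂ v = (match τ₂ v with | Sum.inl l => X l | Sum.inr c => C c) := rfl
  rw [h1]
  cases τ₂ v with
  | inl l =>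
    simp only
    rw [aeval_X]
    exact sub_deg _ _
  | inr c =>
    simp only
    rw [show aeval (sub τ₃) (C c) = C c from (aeval (sub τ₃)).commutes c, totalDegree_C]
    exact Nat.zero_le 1

theorem sub3_deg (v : σ) : (sub3 τ₁ τ₂ τ₃ v).totalDegree ≤ 1 := by
  unfold sub3
  have h1 : sub τ₁ v = (match τ₁ v with | Sum.inl l => X l | Sum.inr c => C c) := rfl
  rw [h1]
  cases τ₁ v with
  | inl l =>
    simp only
    rw [aeval_X]
    exact aeval_sub_deg _ _ _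
  | inr c =>
    simp only
    rw [show aeval (sub τ₂) (C c) = C c from (aeval (sub τ₂)).commutes c,
      show aeval (sub τ₃) (C c) = C c from (aeval (sub τ₃)).commutes c, totalDegree_C]
    exact Nat.zero_le 1

theorem aeval_sub3 (F : MvPolynomial σ ℂ) :
    aeval (sub τ₃) (aeval (sub τ₂) (aeval (sub τ₁) F)) = aeval (sub3 τ₁ τ₂ τ₃) F := by
  have h4 : ((aeval (sub τ₃) : MvPolynomial L₂ ℂ →ₐ[ℂ] MvPolynomial L₃ ℂ).comp
      ((aeval (sub τ₂) : MvPolynomial L₁ ℂ →ₐ[ℂ] MvPolynomial L₂ ℂ).comp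
        (aeval (sub τ₁) : MvPolynomial σ ℂ →ₐ[ℂ] MvPolynomial L₁ ℂ))) =
      aeval (sub3 τ₁ τ₂ τ₃) := by
    refine algHom_ext fun v => ?_
    rw [AlgHom.comp_apply, AlgHom.comp_apply, aeval_X, aeval_X]
    rfl
  exact DFunLike.congr_fun h4 F

end three

theorem fixZ_inl {Y Z : Type} (z : Z → ℂ) (P : MvPolynomial Y ℂ) :
    aeval (sub (fixZ z)) (rename Sum.inl P : MvPolynomial (Y ⊕ Z) ℂ) = P := by
  have h1 : (aeval (sub (fixZ z)) : MvPolynomial (Y ⊕ Z) ℂ →ₐ[ℂ]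
      MvPolynomial Y ℂ).comp (rename Sum.inl) = AlgHom.id ℂ _ := by
    refine algHom_ext fun v => ?_
    rw [AlgHom.comp_apply, rename_X, aeval_X]
    rfl
  exact DFunLike.congr_fun h1 P

theorem fixZ_inr {Y Z : Type} (z : Z → ℂ) (P : MvPolynomial Z ℂ) :
    aeval (sub (fixZ z)) (rename Sum.inr P : MvPolynomial (Y ⊕ Z) ℂ) = C (eval z P) := by
  have h1 : (aeval (sub (fixZ z)) : MvPolynomial (Y ⊕ Z) ℂ →ₐ[ℂ]
      MvPolynomial Y ℂ).comp (rename Sum.inr) =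
      (Algebra.ofId ℂ (MvPolynomial Y ℂ)).comp (aeval z) := by
    refine algHom_ext fun v => ?_
    rw [AlgHom.comp_apply, rename_X, aeval_X, AlgHom.comp_apply, aeval_X]
    rfl
  have h2 := DFunLike.congr_fun h1 P
  rw [AlgHom.comp_apply, AlgHom.comp_apply, aeval_eq_eval] at h2
  exact h2

section red

variable {R Q n : ℕ}

/-- the size of the blocks -/
theorem exists_equiv (hn : 4 * (R + Q) ≤ n) :
    Nonempty (Fin n ≃ Idx R Q ⊕ Fin (n - 4 * (R + Q))) := by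
  refine ⟨(Fintype.equivOfCardEq ?_)⟩
  simp only [Idx, Col, Fintype.card_sum, Fintype.card_prod, Fintype.card_fin, Fintype.card_bool]
  omega

/-- the value of the constant -/
noncomputable def gma (R Q : ℕ) : ℝ := ((1 / 2 : ℝ) ^ 2) ^ (R + Q) * ((-2) ^ R * 2 ^ Q)

theorem gma_sq (R Q : ℕ) : gma R Q ^ 2 = (1 / 4 : ℝ) ^ (R + Q) := by
  unfold gma
  rw [mul_pow, mul_pow, ← pow_mul (-2 : ℝ), mul_comm R 2, pow_mul, ← pow_mul (2 : ℝ) Q 2,
    mul_comm Q 2, pow_mul (2 : ℝ) 2 Q, ← pow_mul _ (R + Q) 2, mul_comm (R + Q) 2, pow_mul _ 2 (R + Q)]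
  norm_num
  rw [← pow_add, ← mul_pow]
  norm_num

/-- **The reduction.** If every projection of `F` has relative distance at least `1 - τ` from
every multiple of the paired permanent, then `F` is far from every multiple of the permanent. -/
theorem reduce (hn : 4 * (R + Q) ≤ n) (F : MvPolynomial (Fin n × Fin n) ℂ) {τ : ℝ}
    (H : ∀ φ : Fin n × Fin n → MvPolynomial (Row R Q × Col R Q) ℂ,
      (∀ v, (φ v).totalDegree ≤ 1) → ∀ γ : ℂ,
      (1 - τ) * (‖γ‖ ^ 2 * l2 (codeQ (Om R Q) ℂ)) ≤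
        l2 (aeval φ F - C γ * codeQ (Om R Q) ℂ)) (γ : ℂ) :
    (1 - τ) * (‖γ‖ ^ 2 * ((n - 4 * (R + Q)).factorial * (((3 / 4 : ℝ) ^ 8 / 4) ^ (R + Q) *
      l2 (codeQ (Om R Q) ℂ)))) ≤ l2 (F - C γ * Pool.CDep.permP n ℂ) := by
  classical
  obtain ⟨E⟩ := exists_equiv hn
  obtain ⟨e⟩ : Nonempty (Col R Q ≃ Row R Q) := ⟨Fintype.equivOfCardEq card_row_col.symm⟩
  set k := n - 4 * (R + Q) with hk
  set h := F - C γ * Pool.CDep.permP n ℂ with hh
  have hC : ∀ {σ L : Type} (τ' : σ → L ⊕ ℂ) (c : ℂ), aeval (sub τ') (C c : MvPolynomial σ ℂ) = C c :=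
    fun τ' c => (aeval (sub τ')).commutes c
  -- the blocks
  set F0 := aeval (sub (blk E)) F with hF0
  set h0 := aeval (sub (blk E)) h with hh0
  have e0 : h0 = F0 - C γ * (rename Sum.inl (permI (Idx R Q)) * rename Sum.inr (permI (Fin k))) := by
    rw [hh0, hh, map_sub, map_mul, hC, aeval_blk]
  have i0 : l2 h0 ≤ l2 h := by
    have h1 := l2_sub_le (blk E) (blk_inj E) (fun v c hc => by
      rw [blk_const E v c hc, norm_zero]; norm_num) h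
    simp only [blk_ker, prod_const_one, one_mul] at h1
    exact h1
  -- the point
  obtain ⟨z, hz, hz2⟩ := exists_z h0 (permI_ne_zero (ι := Fin k))
  rw [l2_permI, Fintype.card_fin] at hz2
  set γ0 : ℂ := eval z (permI (Fin k)) with hγ0
  set F1 := aeval (sub (fixZ z)) F0 with hF1
  set h1 := aeval (sub (fixZ z)) h0 with hh1
  have e1 : h1 = F1 - C γ * (permI (Idx R Q) * C γ0) := by
    rw [hh1, e0, map_sub, map_mul, map_mul, hC, fixZ_inl, fixZ_inr]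
  have hγp : 0 < ‖γ0‖ := norm_pos_iff.2 hz
  -- the gadget
  have i3 := l2_sub_le (tp e) (tp_inj e) (fun v c hc => tp_const e v c hc) h1
  rw [prod_ker_tp] at i3
  set φ : Fin n × Fin n → MvPolynomial (Row R Q × Col R Q) ℂ :=
    sub3 (blk E) (fixZ z) (tp e) with hφ
  have e3 : aeval (sub (tp e)) h1 = aeval φ F - C (γ * γ0 * ((gma R Q : ℝ) : ℂ)) *
      codeQ (Om R Q) ℂ := by
    rw [e1, map_sub, map_mul, map_mul, hC, hC, aeval_tp, hF1, hF0, hφ, aeval_sub3]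
    have h2 : (((1 / 2 : ℂ) ^ 2) ^ (R + Q) * ((-2) ^ R * 2 ^ Q)) = ((gma R Q : ℝ) : ℂ) := by
      unfold gma
      push_cast
      ring
    rw [h2, C_mul, C_mul]
    ring
  have i4 := H φ (sub3_deg _ _ _) (γ * γ0 * ((gma R Q : ℝ) : ℂ))
  have h5 : ‖γ * γ0 * ((gma R Q : ℝ) : ℂ)‖ ^ 2 = ‖γ‖ ^ 2 * ‖γ0‖ ^ 2 * (1 / 4 : ℝ) ^ (R + Q) := by
    rw [norm_mul, norm_mul, mul_pow, mul_pow, Complex.norm_real, Real.norm_eq_abs, sq_abs, gma_sq]
  rw [← e3, h5] at i4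
  have h6 : (0 : ℝ) < ((4 / 3 : ℝ) ^ 8) ^ (R + Q) := by positivity
  have h7 : (((3 / 4 : ℝ) ^ 8 / 4) ^ (R + Q)) * ((4 / 3 : ℝ) ^ 8) ^ (R + Q) = (1 / 4) ^ (R + Q) := by
    rw [← mul_pow]
    norm_num
  have h8 : ((4 / 3 : ℝ) ^ 8) ^ (R + Q) * (‖γ0‖ ^ 2 * ((1 - τ) * (‖γ‖ ^ 2 *
      (k.factorial * (((3 / 4 : ℝ) ^ 8 / 4) ^ (R + Q) * l2 (codeQ (Om R Q) ℂ)))))) ≤
      ((4 / 3 : ℝ) ^ 8) ^ (R + Q) * (‖γ0‖ ^ 2 * l2 h) := by
    calc ((4 / 3 : ℝ) ^ 8) ^ (R + Q) * (‖γ0‖ ^ 2 * ((1 - τ) * (‖γ‖ ^ 2 *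
          (k.factorial * (((3 / 4 : ℝ) ^ 8 / 4) ^ (R + Q) * l2 (codeQ (Om R Q) ℂ))))))
        = k.factorial * ((1 - τ) * (‖γ‖ ^ 2 * ‖γ0‖ ^ 2 *
            ((((3 / 4 : ℝ) ^ 8 / 4) ^ (R + Q)) * ((4 / 3 : ℝ) ^ 8) ^ (R + Q)) *
              l2 (codeQ (Om R Q) ℂ))) := by ring
      _ ≤ k.factorial * (((4 / 3 : ℝ) ^ 8) ^ (R + Q) * l2 h1) := by
          rw [h7]
          exact mul_le_mul_of_nonneg_left (i4.trans i3) (Nat.cast_nonneg _)
      _ = ((4 / 3 : ℝ) ^ 8) ^ (R + Q) * (k.factorial * l2 h1) := by ring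
      _ ≤ ((4 / 3 : ℝ) ^ 8) ^ (R + Q) * (‖γ0‖ ^ 2 * l2 h0) :=
          mul_le_mul_of_nonneg_left hz2 h6.le
      _ ≤ ((4 / 3 : ℝ) ^ 8) ^ (R + Q) * (‖γ0‖ ^ 2 * l2 h) :=
          mul_le_mul_of_nonneg_left (mul_le_mul_of_nonneg_left i0 (by positivity)) h6.le
  exact le_of_mul_le_mul_left (le_of_mul_le_mul_left h8 h6) (by positivity)

end red

end Pool.XGN
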