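import Pool.Agent.XG.Parseval

/-!
# XGN: restrictions of polynomials and the `ℓ²` norm of the coefficients

Every variable is replaced by a constant of modulus less than `1` (zero, for instance) or by a
letter, different variables by different letters. The norm grows at most by the product of the
factors `1 / (1 - |c|²)` (the reproducing kernel of the Hardy space of the polydisc).
-/

set_option autoImplicit false

namespace Pool.XGN

open Finset MvPolynomial Pool.XG

section subst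

variable {σ L : Type}

/-- the substitution -/
noncomputable def sub (τ : σ → L ⊕ ℂ) (v : σ) : MvPolynomial L ℂ :=
  match τ v with
  | Sum.inl l => X l
  | Sum.inr c => C c

/-- the weight of an exponent -/
noncomputable def wt (τ : σ → L ⊕ ℂ) (v : σ) (k : ℕ) : ℂ :=
  match τ v with
  | Sum.inl _ => 1
  | Sum.inr c => c ^ k

/-- the exponent of the letters -/
noncomputable def ex (τ : σ → L ⊕ ℂ) (v : σ) (k : ℕ) : L →₀ ℕ :=
  match τ v with
  | Sum.inl l => Finsupp.single l k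
  | Sum.inr _ => 0

/-- the kernel factor -/
noncomputable def ker (τ : σ → L ⊕ ℂ) (v : σ) : ℝ :=
  match τ v with
  | Sum.inl _ => 1
  | Sum.inr c => (1 - ‖c‖ ^ 2)⁻¹

theorem sub_pow (τ : σ → L ⊕ ℂ) (v : σ) (k : ℕ) :
    sub τ v ^ k = C (wt τ v k) * monomial (ex τ v k) 1 := by
  unfold sub wt ex
  cases τ v with
  | inl l => rw [C_1, one_mul, X_pow_eq_monomial]
  | inr c => rw [C_pow, ← C_apply, C_1, mul_one]

theorem prod_C_mul_monomial (t : Finset σ) (f : σ → ℂ) (g : σ → L →₀ ℕ) :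
    ∏ v ∈ t, (C (f v) * monomial (g v) (1 : ℂ)) = C (∏ v ∈ t, f v) * monomial (∑ v ∈ t, g v) 1 := by
  classical
  induction t using Finset.induction_on with
  | empty => simp
  | insert v t hv ih =>
    rw [prod_insert hv, ih, prod_insert hv, sum_insert hv, C_mul,
      show monomial (g v + ∑ v ∈ t, g v) (1 : ℂ) =
        monomial (g v) 1 * monomial (∑ v ∈ t, g v) 1 by rw [monomial_mul, one_mul]]
    ring

/-- the total exponent -/
noncomputable def Ex [Fintype σ] (τ : σ → L ⊕ ℂ) (q : σ →₀ ℕ) : L →₀ ℕ := ∑ v, ex τ v (q v)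

/-- the total weight -/
noncomputable def Wt [Fintype σ] (τ : σ → L ⊕ ℂ) (q : σ →₀ ℕ) : ℂ := ∏ v, wt τ v (q v)

theorem aeval_sub [Fintype σ] (τ : σ → L ⊕ ℂ) (h : MvPolynomial σ ℂ) :
    aeval (sub τ) h = ∑ q ∈ h.support, monomial (Ex τ q) (coeff q h * Wt τ q) := by
  conv_lhs => rw [h.as_sum]
  rw [map_sum]
  refine sum_congr rfl fun q _ => ?_
  rw [aeval_monomial, Finsupp.prod_fintype _ _ fun v => pow_zero _]
  simp only [sub_pow]
  rw [prod_C_mul_monomial, ← mul_assoc]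
  rw [show (algebraMap ℂ (MvPolynomial L ℂ)) (coeff q h) = C (coeff q h) from rfl, ← C_mul,
    C_mul_monomial, mul_one]
  rfl

theorem coeff_aeval_sub [Fintype σ] [DecidableEq L] (τ : σ → L ⊕ ℂ) (h : MvPolynomial σ ℂ) (p : L →₀ ℕ) :
    coeff p (aeval (sub τ) h) = ∑ q ∈ h.support.filter (fun q => Ex τ q = p),
      coeff q h * Wt τ q := by
  rw [aeval_sub, coeff_sum, sum_filter]
  refine sum_congr rfl fun q _ => ?_
  rw [coeff_monomial]

/-- different variables are replaced by different letters -/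
def Inj (τ : σ → L ⊕ ℂ) : Prop := ∀ v v' l, τ v = Sum.inl l → τ v' = Sum.inl l → v = v'

theorem Ex_apply [Fintype σ] (τ : σ → L ⊕ ℂ) (hτ : Inj τ) (q : σ →₀ ℕ) {v : σ} {l : L} (hv : τ v = Sum.inl l) :
    Ex τ q l = q v := by
  classical
  unfold Ex
  rw [Finsupp.finsetSum_apply, sum_eq_single v]
  · unfold ex
    rw [hv]
    simp
  · intro v' _ hne
    unfold ex
    cases h : τ v' with
    | inl l' =>
      have hl : l' ≠ l := by
        rintro rfl
        exact hne (hτ _ _ _ h hv)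
      simp [hl]
    | inr c => simp
  · intro h
    exact absurd (mem_univ v) h

/-- the sum of the squares of the weights over the monomials with given letters -/
theorem sum_wt_le [Fintype σ] (τ : σ → L ⊕ ℂ) (hτ : Inj τ) (hc : ∀ v c, τ v = Sum.inr c → ‖c‖ < 1)
    (s : Finset (σ →₀ ℕ)) (p : L →₀ ℕ) (hs : ∀ q ∈ s, Ex τ q = p) :
    ∑ q ∈ s, ‖Wt τ q‖ ^ 2 ≤ ∏ v, ker τ v := by
  classical
  -- a bound of all exponents
  obtain ⟨K, hK⟩ : ∃ K : ℕ, ∀ q ∈ s, ∀ v, q v < K := by
    refine ⟨(s.sup fun q => univ.sup fun v => q v) + 1, fun q hq v => ?_⟩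
    have h1 : q v ≤ univ.sup fun v => q v := le_sup (f := fun v => q v) (mem_univ v)
    have h2 : (univ.sup fun v => q v) ≤ s.sup fun q => univ.sup fun v => q v :=
      le_sup (f := fun q : σ →₀ ℕ => univ.sup fun v => q v) hq
    omega
  let t : σ → Finset ℕ := fun v => match τ v with
    | Sum.inl l => {p l}
    | Sum.inr _ => range K
  have hst : ∀ q ∈ s, (⇑q : σ → ℕ) ∈ Fintype.piFinset t := by
    intro q hq
    rw [Fintype.mem_piFinset]
    intro v
    show q v ∈ (match τ v with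
      | Sum.inl l => {p l}
      | Sum.inr _ => range K : Finset ℕ)
    cases h : τ v with
    | inl l =>
      simp only
      rw [mem_singleton, ← hs q hq, Ex_apply τ hτ q h]
    | inr c =>
      simp only
      rw [mem_range]
      exact hK q hq v
  have hker0 : ∀ v, 0 ≤ ∑ k ∈ t v, ‖wt τ v k‖ ^ 2 := fun v => sum_nonneg fun _ _ => by positivity
  have hker : ∀ v, ∑ k ∈ t v, ‖wt τ v k‖ ^ 2 ≤ ker τ v := by
    intro v
    show ∑ k ∈ (match τ v with
      | Sum.inl l => {p l}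
      | Sum.inr _ => range K : Finset ℕ), ‖(match τ v with
      | Sum.inl _ => 1
      | Sum.inr c => c ^ k : ℂ)‖ ^ 2 ≤ (match τ v with
      | Sum.inl _ => 1
      | Sum.inr c => (1 - ‖c‖ ^ 2)⁻¹ : ℝ)
    cases h : τ v with
    | inl l => simp
    | inr c =>
      simp only
      have h1 : ‖c‖ ^ 2 < 1 := by
        have := hc v c h
        have h0 := norm_nonneg c
        nlinarith
      have h2 : ∀ k, ‖c ^ k‖ ^ 2 = (‖c‖ ^ 2) ^ k := fun k => by
        rw [norm_pow, ← pow_mul, ← pow_mul, mul_comm]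
      simp only [h2]
      have h3 := geom_sum_mul_neg (‖c‖ ^ 2) K
      have h4 : (0 : ℝ) < 1 - ‖c‖ ^ 2 := by linarith
      rw [← one_div, le_div_iff₀ h4, h3]
      have h5 : 0 ≤ (‖c‖ ^ 2) ^ K := by positivity
      linarith
  calc ∑ q ∈ s, ‖Wt τ q‖ ^ 2 = ∑ q ∈ s, ∏ v, ‖wt τ v (q v)‖ ^ 2 := by
        refine sum_congr rfl fun q _ => ?_
        unfold Wt
        rw [norm_prod, prod_pow]
    _ = ∑ q ∈ s.map ⟨fun q : σ →₀ ℕ => (⇑q : σ → ℕ), DFunLike.coe_injective⟩,
          ∏ v, ‖wt τ v (q v)‖ ^ 2 := by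
        rw [sum_map]
        rfl
    _ ≤ ∑ q ∈ Fintype.piFinset t, ∏ v, ‖wt τ v (q v)‖ ^ 2 := by
        refine sum_le_sum_of_subset_of_nonneg ?_ fun q _ _ => prod_nonneg fun v _ => by positivity
        intro q hq
        rw [mem_map] at hq
        obtain ⟨q', hq', rfl⟩ := hq
        exact hst q' hq'
    _ = ∏ v, ∑ k ∈ t v, ‖wt τ v k‖ ^ 2 := by
        rw [prod_univ_sum]
    _ ≤ ∏ v, ker τ v := prod_le_prod (fun v _ => hker0 v) fun v _ => hker v

/-- **Restrictions.** -/
theorem l2_sub_le [Fintype σ] (τ : σ → L ⊕ ℂ) (hτ : Inj τ) (hc : ∀ v c, τ v = Sum.inr c → ‖c‖ < 1)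
    (h : MvPolynomial σ ℂ) : l2 (aeval (sub τ) h) ≤ (∏ v, ker τ v) * l2 h := by
  classical
  have hsupp : (aeval (sub τ) h).support ⊆ h.support.image (Ex τ) := by
    intro p hp
    rw [mem_support_iff, coeff_aeval_sub] at hp
    obtain ⟨q, hq, -⟩ := exists_ne_zero_of_sum_ne_zero hp
    rw [mem_filter] at hq
    exact mem_image.2 ⟨q, hq.1, hq.2⟩
  rw [l2_eq _ hsupp]
  have h1 : ∀ p ∈ h.support.image (Ex τ), ‖coeff p (aeval (sub τ) h)‖ ^ 2 ≤
      (∏ v, ker τ v) * ∑ q ∈ h.support.filter (fun q => Ex τ q = p), ‖coeff q h‖ ^ 2 := by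
    intro p _
    rw [coeff_aeval_sub]
    have h2 : ‖∑ q ∈ h.support.filter (fun q => Ex τ q = p), coeff q h * Wt τ q‖ ≤
        ∑ q ∈ h.support.filter (fun q => Ex τ q = p), ‖coeff q h‖ * ‖Wt τ q‖ :=
      (norm_sum_le _ _).trans (sum_le_sum fun q _ => (norm_mul _ _).le)
    have h3 := sum_mul_sq_le_sq_mul_sq (h.support.filter (fun q => Ex τ q = p))
      (fun q => ‖coeff q h‖) (fun q => ‖Wt τ q‖)
    have h4 := sum_wt_le τ hτ hc (h.support.filter (fun q => Ex τ q = p)) p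
      fun q hq => (mem_filter.1 hq).2
    calc ‖∑ q ∈ h.support.filter (fun q => Ex τ q = p), coeff q h * Wt τ q‖ ^ 2
        ≤ (∑ q ∈ h.support.filter (fun q => Ex τ q = p), ‖coeff q h‖ * ‖Wt τ q‖) ^ 2 :=
          pow_le_pow_left₀ (norm_nonneg _) h2 2
      _ ≤ (∑ q ∈ h.support.filter (fun q => Ex τ q = p), ‖coeff q h‖ ^ 2) *
          ∑ q ∈ h.support.filter (fun q => Ex τ q = p), ‖Wt τ q‖ ^ 2 := h3
      _ ≤ (∑ q ∈ h.support.filter (fun q => Ex τ q = p), ‖coeff q h‖ ^ 2) * ∏ v, ker τ v :=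
          mul_le_mul_of_nonneg_left h4 (sum_nonneg fun _ _ => by positivity)
      _ = _ := mul_comm _ _
  refine (sum_le_sum h1).trans (le_of_eq ?_)
  rw [← mul_sum, l2]
  congr 1
  exact sum_fiberwise_of_maps_to (fun q hq => mem_image_of_mem _ hq) _

end subst

end Pool.XGN
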